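import Pool.Agent.W2helper43.BD.Stm

/-! # Project BD, piece DTR: transitivity of the derived equivalence. -/

set_option autoImplicit false

open CategoryTheory

namespace Pool.Agent.W2helper71.BD

open Pool.Agent.W2helper43.BD

theorem p_dtr : P_DTR := by
  intro A B C _ _ _ h1 h2
  let := HasDerivedCategory.standard (ModuleCat.{0} A)
  let := HasDerivedCategory.standard (ModuleCat.{0} B)
  let := HasDerivedCategory.standard (ModuleCat.{0} C)
  obtain ⟨e, c, t⟩ := h1
  obtain ⟨e', c', t'⟩ := h2
  let := c
  let := c'
  have := t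
  have := t'
  refine ⟨e.trans e', ?_⟩
  change ∃ _ : (e.functor ⋙ e'.functor).CommShift ℤ, (e.functor ⋙ e'.functor).IsTriangulated
  exact ⟨inferInstance, inferInstance⟩

end Pool.Agent.W2helper71.BD
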