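import Pool.Agent.W2helper43.BD.Stm
import Pool.Agent.W2helper6.BR.Alt

/-! # Project BD, piece EMB: every finite group embeds in an alternating group. -/

set_option autoImplicit false

namespace Pool.Agent.W2helper71.BD

open Pool.Agent.W2helper43.BD

theorem p_emb : P_EMB := by
  intro G _ _
  obtain ⟨n, h⟩ := Pool.Agent.W2helper6.BR.ALT_ok G
  obtain ⟨ι, hι, -⟩ := h n le_rfl
  exact ⟨n, ι, hι⟩

end Pool.Agent.W2helper71.BD
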